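import Pool.Agent.J4.H14.MV.Core

/-!
MP_5b1cbc_ag, Q1: general type and pseudo-geometric hyperbolicity for all projective varieties which
have a generically finite many-valued rational map to a sufficiently ramified covering of an arbitrary
variety, ramified over very general members of (sparse) linear systems.

Let `K` be an algebraically closed field of characteristic `0`, and let `k` be a field contained in
`K`, with algebraic closure `k'` in `K`. A *ramified pair* (`SparsePair k K`, in
`Pool/Agent/J4/H14/MV/Defs.lean`) without boundary is given by

* a closed subset `V` of the projective `n`-space over `k'`, of dimension at most `m` (of any degree,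
  with any singularities);
* very general members `F_a`, `a` in a finite set, of linear systems of forms of degrees `d_a` over
  `k'`. The systems can be sparse: it is supposed only that they contain the monomials
  `x_c ^ (d_a - l) x_i ^ l` for the `c` in a set of indices, `charts` (with at least one element, else
  nothing is said); for all monomials, this is the set of all `c`;
* a projective variety or algebraic set `X` over `K` (any closed subset of the weighted projective
  space with the coordinates `x_0, …, x_n` of weight `1` and `u_w` of weight `e_w ≤ E`), with a finite
  morphism `(x, u) ↦ x` to `V` and to the hypersurfaces `F_a = 0` with `a` in a set `C` (for example,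
  `C` is empty), which is ramified of order at least `q_a ≥ 1` over `F_a = 0` for the `a ∉ C`.

Let `T = total` be the sum of the `d_a + 1` (`a ∈ C`) and of the `d_a (1 - 1 / q_a)` (`a ∉ C`), and
`excess r = T - 2 m - 2 (r - 1) E`. For example, the cyclic covering `u ^ q = F (x)` of any `V`, where
`q` divides the degree `d` of `F`, has `E = d / q` and `excess r = d (1 - (2 r - 1) / q) - 2 m`, and the
intersection of `V` with the hypersurfaces `F_a = 0` has `E = 1`.

Hyperbolicity is obtained if `excess r > 0`, and general type in dimension `w` if
`excess r + (w - 1) > 0` (for a hypersurface of degree `d` in `P^m`, `w = m - 1` and `r = 1`, this is the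
sharp condition `d > m + 1`).

Let `M` be any projective variety over `K`, of dimension `w ≥ 1`, with function field `L` and generic
point `u`. A rational `r`-valued map from `M` to `X` is a correspondence
`M ← W → X`, where `W → M` has degree at most `r`: it is given by the function field `L'` of `W` and by
a point `z` of `X` with coordinates in `L'` (in one of the charts `x_c ≠ 0`, with `z_c = 1`). It is
generically finite if `L'` is algebraic over `K(z)`. For example, `M` is the image of a closed
subvariety `W` of `X` under a rational map of degree at most `r`, or its quotient by a finite group.

`GeneralType K L w` (`Pool/Agent/W602/GT/Defs.lean`): `M` is of general type. `PseudoGeomHyp K u`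
(`Pool/Agent/W602/RG/TB.lean`): off a proper closed subset of `M`, for every pointed curve there are
finitely many morphisms to `M` with a given value at the marked point. `CoverBound K ρ u`
(`Pool/Agent/N95/GP/Dom.lean`): off a proper closed subset, the degree of every morphism to `M` from a
covering of degree at most `ρ` of a smooth projective curve of genus `g` is at most
`A max (2 g - 2, 0)`.
-/

set_option autoImplicit false
set_option linter.overlappingInstances false

namespace Pool.Agent.Results.MP_5b1cbc_ag.ManyValuedRamified

open Pool.Agent.J4.H14.MV (RatMap RatMap.values SparsePair)
open Pool.Agent.W602.GT (GeneralType coords)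
open Pool.Agent.W602.RG (PseudoGeomHyp)
open Pool.Agent.N95.GP (CoverBound)

/-- The function `t` on `M` is algebraic over the field generated by the values (the branches of the
coordinates) of all rational `r`-valued maps from `M` to ramified pairs without boundary with
`excess R > 0` (`RatMap k K L r R`, in `Pool/Agent/J4/H14/MV/Core.lean`). -/
def AlgebraicOverValues (k K : Type) [Field k] [Field K] [Algebra k K] (r R : ℕ) {L : Type}
    [Field L] [Algebra K L] (t : L) : Prop :=
  IsAlgebraic (IntermediateField.adjoin K (⋃ C : RatMap k K L r R, C.values (AlgebraicClosure L)))
    (algebraMap L (AlgebraicClosure L) t)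

/-- Let `M` be any projective variety over `K`, of dimension `w ≥ 1`, with function field `L` and
generic point `u`, and let `r` and `ρ ≥ 1` be natural numbers. Then both halves of Q1 hold for `M`, in
the following cases.

**(1)** Let `M ← W → X` be a generically finite rational `r`-valued map to a ramified pair without
boundary, with `excess r + (w - 1) > 0`. Then `M` is of general type.

**(2)** Let all functions on `M` be algebraic over the values of all rational `r`-valued maps to
ramified pairs without boundary with `excess (ρ r) > 0` (for example, let one of them be generically
finite). Then `M` is pseudo-geometrically hyperbolic, and the degrees of the coverings of degree at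
most `ρ` of curves are bounded linearly, off a proper closed subset. -/
theorem result {k K L : Type} [Field k] [Field K] [IsAlgClosed K] [CharZero K] [Algebra k K]
    [Field L] [Algebra K L] {N : ℕ} {u : Fin (N + 1) → L} (hu : u ≠ 0) (hgen : coords K u = ⊤)
    {w : ℕ} (hw : Algebra.trdeg K L = w) (hw1 : 1 ≤ w) (r ρ : ℕ) (hρ : 1 ≤ ρ) :
    (∀ (X : SparsePair k K) (L' : Type) [Field L'] [Algebra K L'] [Algebra L L']
      [IsScalarTower K L L'] [FiniteDimensional L L'] (z : Fin (X.n + 1) ⊕ X.W → L'),
      X.boundary = ∅ → X.Point z → Algebra.IsAlgebraic (IntermediateField.adjoin K (Set.range z)) L' →
      Module.finrank L L' ≤ r → 0 < X.excess r + ((w : ℚ) - 1) → GeneralType K L w) ∧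
    ((∀ t : L, AlgebraicOverValues k K r (ρ * r) t) → PseudoGeomHyp K u ∧ CoverBound K ρ u) := by
  refine ⟨fun X L' _ _ _ _ _ z hX hz halg hr hex => ?_, fun h => ?_⟩
  · exact Pool.Agent.J4.H14.MV.rat_gt hu hgen hw1 hw hX hr hz hex halg
  · have h1 : CoverBound K ρ u := Pool.Agent.J4.H14.MV.joint_proj (k := k) (r := r)
      (AlgebraicClosure L) hu hgen (fun t => Pool.Agent.N111.FT.mem_aclo.2 (h t))
    exact ⟨Pool.Agent.Y216.pointed_of_bound (h1.curve hρ), h1⟩

end Pool.Agent.Results.MP_5b1cbc_ag.ManyValuedRamified
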