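import Pool.Agent.J4.H93.WS.RP

/-!
# General type and pseudo-geometric hyperbolicity, for almost all members of all polynomial families of systems of monomials

The exponents of the monomials are any polynomials `A e i j` (form `e`, monomial `i`, variable `j`) with integral coefficients in
`m` parameters `t_1, …, t_m`. We consider the projective varieties given by forms `F e` with arbitrary coefficients, in
algebraically closed fields of characteristic zero, such that all exponent vectors which occur in `F e` are among the `A e i (t)`.

**Theorem.** Assume one of the following conditions.
* `NoConstantWidthsR A`: take a set `I` of variables and at most `n` pairs of exponent vectors (of the same form) in the variables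
  from `I`; if the widths of these pairs with respect to a direction `u` with polynomial entries vanish only if `u` is constant on
  `I`, then they are all integers only if `u` is constant on `I`.
* At some integral point, the same for all `e`, the exponent vectors `A e i` of each form `e` coincide: for example, linear forms in the parameters such as
  `t_1 p_i + t_2 q_i + …`, and the family of all the tuples of monomials.

Then, for all parameters `t` outside of a sparse set `E`, `Equivalent F` for all these systems of forms over all algebraically closed
fields of characteristic zero. `E` is sparse: for every `η > 0` the proportion of the elements of `E` in each product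
`S_1 × ⋯ × S_m` of sets `S_i ⊆ {0, …, H}` with at least `q` elements is at most `C H ^ η / q`.

`Equivalent F`: for all components `V` of positive dimension of `X = {F = 0}` it is equivalent that `V` is of general type; that
`V` is pseudo-geometrically hyperbolic (for all points `x` off a proper closed subset there are finitely many morphisms from each
pointed curve to `V` which map the marked point to `x`); that off a proper closed subset the degrees of the morphisms from each curve
to `V` are bounded; the same with a bound linear in the genus; that the canonical class of `V` is pseudo-effective; that `V` is not
ruled; that all diagonal one-parameter groups which act on `V` act trivially.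

Proof. Two new steps. (1) The widths with respect to integral directions are bounded only if the value of a polynomial `D` divides
the value of another polynomial `G`, where `D` does not divide any `c G`, or one of finitely many nonzero polynomials vanishes, or
there is a polynomial direction with constant widths (`Pool.Agent.J4.H93.WS.no_direction'`). (2) If `D` does not divide any `c G`,
then `D (t)` divides `G (t)` only for a sparse set of `t` (`Pool.Agent.J4.H93.WS.sparse_dvd`): a prime factor of `D` and `G` have a
combination which does not depend on one of the parameters and has few divisors. Then the theorems of the starting library on wide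
systems apply.
-/

set_option autoImplicit false

namespace Pool.Agent.Results.MP_5b1cbc_ag.PolynomialFamilies

open MvPolynomial Pool.Agent.J4.H93.WS Pool.Agent.J4.H93.WS.RP Pool.Agent.R869.Wd
open Pool.Agent.Results.MP_5b1cbc_ag.AlmostAllMonomials

/-- For all parameters `t` outside of a sparse set, `Equivalent F` for all systems of polynomials, over all algebraically closed
fields of characteristic zero, whose exponent vectors are among the values `A e i (t)`. -/
theorem result {m n s : ℕ} {ι : Type} [Finite ι] (A : ι → Fin s → Fin (n + 1) → MvPolynomial (Fin m) ℤ)
    (hdeg : ∀ e i i', ∑ j, A e i j = ∑ j, A e i' j)
    (hA : NoConstantWidthsR A ∨ ∃ t₀ : Fin m → ℤ, ∀ e i i' j, eval t₀ (A e i j) = eval t₀ (A e i' j)) :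
    Sparse {t : Fin m → ℕ | ¬ ∀ (k : Type) [Field k] [IsAlgClosed k] [CharZero k] (F : ι → MvPolynomial (Fin (n + 1)) k),
      (∀ e, ∀ α ∈ (F e).support, ∃ i, ∀ j, (α j : ℤ) = eval (fun k => (t k : ℤ)) (A e i j)) → Equivalent F} := by
  obtain ⟨N, hN⟩ : ∃ N, N = (s + 1) * (n * Pool.Agent.R869.tri (s + 1 - 1)) + 1 := ⟨_, rfl⟩
  refine (wide_several' hdeg hA N).mono fun t ht hcon => ht fun k _ _ _ F hF => ?_
  refine equivalent_of_wide (a := fun e i j => evn t (A e i j)) (fun e i i' => ?_) hcon (by omega) k F hF
  rw [← map_sum, ← map_sum, hdeg e i i']

end Pool.Agent.Results.MP_5b1cbc_ag.PolynomialFamilies
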