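import Pool.Agent.J4.H73.BF.Final

/-!
MP_5b1cbc_ag, Q1: the equivalence of general type and pseudo-geometric hyperbolicity (both hold) for
the projective varieties, of any dimension, all of whose functions are algebraic over the values of
rational maps to the spaces `P^n` of the polynomials of degree at most `n` which are ramified over
the hyperplanes of the polynomials that vanish at given constants, and for all their subvarieties
which are not contained in a proper closed subset.
-/

set_option autoImplicit false

namespace Pool.Agent.Results.MP_5b1cbc_ag.PolynomialSpaceCovers

open MvPolynomial Pool.Agent.J4.H73.BF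
open Pool.Agent.W602.GT (IsForm coords GeneralType)
open Pool.Agent.W602.RG (PseudoGeomHyp)
open Pool.Agent.Y216 (OnVar)

/-- Let `M` be a projective variety over the algebraically closed field `k` of characteristic `0`,
with generic point `u` and function field `L`. Assume that all functions on `M` are algebraic over
the values of orbifold polynomials on `M` (see `OrbifoldPolynomial`; here `B = 1` and `b = 0`: there
is no boundary).

Then there is a proper closed subset `G = 0` of `M` such that every subvariety `V` of `M`, of
dimension `w ≥ 1`, with generic point `v`, which is not contained in `G = 0` (for instance `V = M`)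
is of general type and pseudo-geometrically hyperbolic. -/
theorem result {k : Type} [Field k] [IsAlgClosed k] [CharZero k] {L : Type} [Field L] [Algebra k L]
    {N : ℕ} (u : Fin (N + 1) → L) (hu : u ≠ 0) (hgen : coords k u = ⊤)
    (h : ∀ t : L, IsAlgebraic (IntermediateField.adjoin k {z : L |
      ∃ H : OrbifoldPolynomial u (1 : MvPolynomial (Fin (N + 1)) k) 0, z ∈ H.values}) t) :
    ∃ G : MvPolynomial (Fin (N + 1)) k, IsForm G ∧ aeval u G ≠ 0 ∧
      ∀ (K : Type) [Field K] [Algebra k K] (v : Fin (N + 1) → K) (w : ℕ), OnVar k u v →
        coords k v = ⊤ → Algebra.trdeg k K = w → 1 ≤ w → aeval v G ≠ 0 →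
        GeneralType k K w ∧ PseudoGeomHyp k v :=
  pointed hu hgen fun t => Pool.Agent.N111.FT.mem_aclo.2 (h t)

end Pool.Agent.Results.MP_5b1cbc_ag.PolynomialSpaceCovers
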