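import Pool.Agent.J4.H14.SH.Ptd
import Pool.Agent.J4.H14.SH.Closed
import Pool.Agent.N254.SQ.AlgS
import Pool.Agent.N254.SQ.Hineq
import Pool.Agent.N254.SQ.Hblk
import Pool.Agent.N254.SQ.Hform
import Pool.Agent.N254.SQ.GeoC
import Pool.Agent.N254.SQ.Qimp

/-!
# General type and pseudo-geometric hyperbolicity: a question on smooth hypersurfaces

Let `X = V(S)` be any projective variety in `P^n` over `ℂ`, `n ≥ 1` (of any dimension and with any
singularities), given by forms of degree at most `d`, `d ≥ 3`, and let `v : P^n → P^N` be the Veronese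
embedding of degree `d`. For all `D ≥ D₁(N)` there are quadratic forms `Q_t`, `t < N (2 N + 1)`, such
that the hypersurface

`Y : ∑ t, Q_t(y) (y_0 + t y_1 + ⋯ + t^N y_N)^D = 0`

is smooth, contains `v(X)`, and has the following properties.

* All morphisms from a smooth projective curve `C` to `Y` have degree at most `max (2 g(C) - 2, 0)`
  or have their image in `v(X)` (`CurvesBounded`).
* For all `y ∈ Y` outside of `v(X)` and all pointed curves `(C, c)` there are only finitely many
  morphisms `C → Y` which map `c` to `y` (`OnPointed {Y} G` for all forms `G` which vanish on `v(X)`).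
* All closed subvarieties of `Y` of dimension `> n` (so `Y` itself), and all closed subvarieties of
  `Y` of positive dimension which are not contained in `v(X)`, are of general type and
  pseudo-geometrically hyperbolic.
* The exceptional set for pointed curves, and the exceptional set for the subvarieties which are
  not of general type, are those of `X`: a form `G` on `P^N` vanishes on the first (second)
  exceptional set of `Y` if and only if `G ∘ v` vanishes on the first (second) exceptional set of `X`.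
* A closed subvariety `V` of `X` is pseudo-geometrically hyperbolic if and only if `v(V)` is.

Consequently the two halves of Q1 for all projective varieties over `ℂ` are statements on the smooth
hypersurfaces `Y` of this form (with `D ≥ D₁(N)` in any given infinite set of exponents):

* (pseudo-geometrically hyperbolic implies general type) if and only if, for all these `Y`, the
  closed subvarieties of positive dimension not of general type are contained in the Zariski
  closure of the points `y` of `Y` which have infinitely many morphisms of pointed curves `(C, c) → (Y, y)`;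
* (general type implies pseudo-geometrically hyperbolic) if and only if, for all these `Y`, every
  irreducible component of positive dimension of this closure which is of general type is
  pseudo-geometrically hyperbolic.

Proof. `Y` and the bounds for curves in `Y` are from `Pool/Agent/N254/SQ`. If infinitely many morphisms
of bounded degree map `c` to `y`, there is a rational curve through `y` (bend and break), it is
contained in `v(X)` by the bound, so `y ∈ v(X)`, and it gives infinitely many morphisms from a pointed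
rational curve to `X` for all of its points. The Zariski closed set `v(X)` is cut out by forms, over all
extensions of `ℂ`. For the equivalences, a form `G` with `G ^ d = G' ∘ v` is lifted to `G'`; and if
`X` is not pseudo-geometrically hyperbolic, then `v(X)` is a component of the exceptional set.
-/

set_option autoImplicit false

namespace Pool.Agent.Results.MP_5b1cbc_ag.SmoothHypersurfacesSuffice

open MvPolynomial FF
open Pool.Agent.W602.GT (SubVar GeneralType)
open Pool.Agent.W602.RG (HasValue)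
open Pool.Agent.W603.LV (canDeg)
open Pool.Agent.W603.PV (pht)
open Pool.Agent.N254.SQ (IsForm Eqs Component OnSpecial SmoothForm powerForm Monomials veronese)
open Pool.Agent.J4.H14.SH (OnPointed)

/-- The projective variety with generic point `y` is pseudo-geometrically hyperbolic over `ℂ`: there is
a form `G` which does not vanish on it such that for all points `x` of it with `G(x) ≠ 0` and all pointed
curves `(C, c)` there are only finitely many morphisms from `C` to the variety which map `c` to `x`. -/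
def PseudoGeomHyp {n : ℕ} {L : Type} [Field L] [Algebra ℂ L] (y : Fin (n + 1) → L) : Prop :=
  ∃ G : MvPolynomial (Fin (n + 1)) ℂ, IsForm G ∧ aeval y G ≠ 0 ∧ OnPointed (Eqs y) G

/-- all projective varieties of positive dimension over `ℂ` which are pseudo-geometrically hyperbolic
are of general type -/
def HyperbolicImpliesGeneral : Prop :=
  ∀ (n : ℕ) (L : Type) [Field L] [Algebra ℂ L] (w : ℕ) (y : Fin (n + 1) → L), 1 ≤ w →
    SubVar (fun p : (∅ : Set (MvPolynomial (Fin (n + 1)) ℂ)) => (p : MvPolynomial (Fin (n + 1)) ℂ))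
      L w y → PseudoGeomHyp y → GeneralType ℂ L w

/-- all projective varieties of positive dimension over `ℂ` of general type are
pseudo-geometrically hyperbolic -/
def GeneralImpliesHyperbolic : Prop :=
  ∀ (n : ℕ) (L : Type) [Field L] [Algebra ℂ L] (w : ℕ) (y : Fin (n + 1) → L), 1 ≤ w →
    SubVar (fun p : (∅ : Set (MvPolynomial (Fin (n + 1)) ℂ)) => (p : MvPolynomial (Fin (n + 1)) ℂ))
      L w y → GeneralType ℂ L w → PseudoGeomHyp y

section

variable {n N : ℕ} (m : Fin (N + 1) → Fin (n + 1) → ℕ) (S : Set (MvPolynomial (Fin (n + 1)) ℂ))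
  (A : MvPolynomial (Fin (N + 1)) ℂ)

/-- morphisms from smooth projective curves of genus `g` to `A = 0` have degree at most
`max (2 g - 2, 0)` or have their image in `v(X)` -/
def CurvesBounded : Prop :=
  ∀ (E : Type) [Field E] [Algebra ℂ E] [IsFF ℂ E] (y : Fin (N + 1) → E), y ≠ 0 → aeval y A = 0 →
    pht ℂ y ≤ max (canDeg ℂ E) 0 ∨
      ∃ (x : Fin (n + 1) → E) (c : E), x ≠ 0 ∧ c ≠ 0 ∧ (∀ p ∈ S, aeval x p = 0) ∧
        y = c • veronese m x

/-- every closed subvariety of `A = 0` of dimension `> n` is of general type and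
pseudo-geometrically hyperbolic -/
def LargeSubvarieties : Prop :=
  ∀ (L : Type) [Field L] [Algebra ℂ L] (w : ℕ) (y : Fin (N + 1) → L), n < w →
    SubVar (fun _ : Unit => A) L w y → GeneralType ℂ L w ∧ PseudoGeomHyp y

/-- closed subvarieties of `A = 0` of positive dimension are of general type and
pseudo-geometrically hyperbolic, or lie in `v(X)` -/
def OtherSubvarieties : Prop :=
  ∀ (L : Type) [Field L] [Algebra ℂ L] (w : ℕ) (y : Fin (N + 1) → L), 1 ≤ w →
    SubVar (fun _ : Unit => A) L w y → (GeneralType ℂ L w ∧ PseudoGeomHyp y) ∨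
      ∃ (x : Fin (n + 1) → L) (c : L), x ≠ 0 ∧ c ≠ 0 ∧ (∀ p ∈ S, aeval x p = 0) ∧
        y = c • veronese m x

/-- a closed subvariety `V` of `X` is pseudo-geometrically hyperbolic if and only if `v(V)` is -/
def SubvarietiesIff : Prop :=
  ∀ (L : Type) [Field L] [Algebra ℂ L] (w : ℕ) (y : Fin (n + 1) → L),
    SubVar (fun p : S => (p : MvPolynomial (Fin (n + 1)) ℂ)) L w y →
      (PseudoGeomHyp y ↔ PseudoGeomHyp (veronese m y))

end

section proof

open Pool.Agent.N254.SQ (Mon ver Good GoodAlg GeoCurves Hform pull eval_pull aeval_pull Gen t_num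
  power_form t_versurj coords_ver sub_ver special_iff qi_same qi_no ver_ne_zero aeval_zero_of
  aeval_scale eval_scale pull_hom)
open Pool.Agent.J4.H14.SH (transfer_pt value_zero ver_closed pt_pull pt_push)
open scoped LinearAlgebra.Projectivization

/-- the dimension of a point given by ratios -/
theorem dim_le {M n : ℕ} {L : Type} [Field L] [Algebra ℂ L] {w : ℕ} {y : Fin (M + 1) → L}
    (hgen : Pool.Agent.W602.GT.coords ℂ y = ⊤) (hdim : Algebra.trdeg ℂ L = w)
    (x : Fin (n + 1) → L) (hx : x ≠ 0)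
    (h : Pool.Agent.W602.GT.coords ℂ x = Pool.Agent.W602.GT.coords ℂ y) : w ≤ n := by
  obtain ⟨a, ha⟩ : ∃ a, x a ≠ 0 := by
    by_contra hcon
    push Not at hcon
    exact hx (funext hcon)
  set x' : Fin (n + 1) → L := fun j => x j / x a with hx'
  have h2 : IntermediateField.adjoin ℂ (Set.range x') = ⊤ := by
    rw [eq_top_iff, ← hgen, ← h]
    apply IntermediateField.adjoin_le_iff.2
    rintro _ ⟨i, j, hj, rfl⟩
    have h3 : ∀ k, x' k ∈ IntermediateField.adjoin ℂ (Set.range x') := fun k =>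
      IntermediateField.subset_adjoin ℂ _ ⟨k, rfl⟩
    have h4 : x i / x j = x' i / x' j := by
      rw [hx']
      simp only
      rw [div_div_div_cancel_right₀ ha]
    rw [h4]
    exact div_mem (h3 i) (h3 j)
  have h3 := Pool.Agent.N254.SQ.t_td ℂ L n n x' a x' (by rw [hx']; exact div_self ha)
    (fun b => ⟨X b, by rw [aeval_X]⟩)
  rw [← Pool.Agent.N254.SQ.trdeg_field, h2] at h3
  have h4 := (IntermediateField.topEquiv (F := ℂ) (E := L)).trdeg_eq
  rw [h4, hdim] at h3
  exact_mod_cast h3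

/-- subvarieties of a hypersurface, with the two index types -/
theorem sub_unit {N : ℕ} {A : MvPolynomial (Fin (N + 1)) ℂ} {L : Type} [Field L] [Algebra ℂ L]
    {w : ℕ} {y : Fin (N + 1) → L} (hy : SubVar (fun _ : Unit => A) L w y) :
      SubVar (fun p : ({A} : Set _) => (p : MvPolynomial (Fin (N + 1)) ℂ)) L w y := by
  refine ⟨hy.ne, fun p => ?_, hy.gen, hy.dim⟩
  obtain ⟨p, hp⟩ := p
  rw [Set.mem_singleton_iff] at hp
  subst hp
  exact hy.mem ()

/-- exceptional sets of closed subsets -/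
theorem pt_mono {n : ℕ} {S S' : Set (MvPolynomial (Fin (n + 1)) ℂ)}
    (h : ∀ (Ω : Type) [Field Ω] [Algebra ℂ Ω] (x : Fin (n + 1) → Ω),
      (∀ p ∈ S', aeval x p = 0) → ∀ p ∈ S, aeval x p = 0)
    {G : MvPolynomial (Fin (n + 1)) ℂ} (hG : OnPointed S G) : OnPointed S' G := by
  intro E _ _ _ c x hx hxG
  refine (hG E c x hx hxG).subset ?_
  rintro φ ⟨f, hf, hfS, hv, rfl⟩
  exact ⟨f, hf, h E f hfS, hv, rfl⟩

/-- a form which vanishes on `V(S)`, over all extensions, is in the ideal -/
theorem pt_van {n : ℕ} {S : Set (MvPolynomial (Fin (n + 1)) ℂ)}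
    {G : MvPolynomial (Fin (n + 1)) ℂ} (hG : IsForm G)
    (h : ∀ (Ω : Type) [Field Ω] [Algebra ℂ Ω] (x : Fin (n + 1) → Ω),
      (∀ p ∈ S, aeval x p = 0) → aeval x G = 0) : OnPointed S G := by
  intro E _ _ _ c x hx hxG
  refine Set.Finite.subset Set.finite_empty ?_
  rintro φ ⟨f, hf, hfS, hv, rfl⟩
  exact hxG (value_zero hx hf hv hG (h E f hfS))

/-- a form which vanishes on the points of `V(S)` is in the ideal -/
theorem pt_van' {n : ℕ} {S : Set (MvPolynomial (Fin (n + 1)) ℂ)} (hS : ∀ p ∈ S, IsForm p)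
    {G : MvPolynomial (Fin (n + 1)) ℂ}
    (h : ∀ x : Fin (n + 1) → ℂ, (∀ p ∈ S, eval x p = 0) → eval x G = 0) : OnPointed S G := by
  intro E _ _ _ c x hx hxG
  refine Set.Finite.subset Set.finite_empty ?_
  rintro φ ⟨f, hf, hfS, hv, rfl⟩
  exact hxG (h x fun p hp => value_zero hx hf hv (hS p hp) (hfS p hp))

/-- the lift of a form -/
theorem exists_form {n N d : ℕ} {m : Fin (N + 1) → Fin (n + 1) → ℕ} (hm : Mon n N d m)
    {G : MvPolynomial (Fin (n + 1)) ℂ} (hG : IsForm G) :
    ∃ G' : MvPolynomial (Fin (N + 1)) ℂ, IsForm G' ∧ pull m G' = G ^ d := by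
  obtain ⟨e, he⟩ := hG
  obtain ⟨G', h1, h2⟩ := t_versurj n N d m hm e (G ^ d) (by
    have := he.pow d
    rwa [mul_comm] at this)
  exact ⟨G', ⟨e, h1⟩, h2⟩

/-- powers of forms -/
theorem pt_pow {n : ℕ} {S : Set (MvPolynomial (Fin (n + 1)) ℂ)} {G : MvPolynomial (Fin (n + 1)) ℂ}
    {d : ℕ} (hd : 1 ≤ d) : OnPointed S (G ^ d) ↔ OnPointed S G := by
  have key : ∀ x : Fin (n + 1) → ℂ, eval x (G ^ d) ≠ 0 ↔ eval x G ≠ 0 := by
    intro x
    rw [map_pow]
    exact pow_ne_zero_iff (by omega)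
  constructor
  · intro h E _ _ _ c x hx hxG
    exact h E c x hx ((key x).2 hxG)
  · intro h E _ _ _ c x hx hxG
    exact h E c x hx ((key x).1 hxG)

/-- the construction over the complex numbers -/
theorem cons {D₁ : ℕ → ℕ} (H : GeoCurves D₁) (n d : ℕ) (hn : 1 ≤ n) (hd : 3 ≤ d) :
    ∃ (N : ℕ) (m : Fin (N + 1) → Fin (n + 1) → ℕ),
      Mon n N d m ∧ 2 * n < N ∧ ∀ D, D₁ N ≤ D →
        ∀ S : Set (MvPolynomial (Fin (n + 1)) ℂ), (∀ p ∈ S, ∃ e ≤ d, p.IsHomogeneous e) →
        ∃ Q : Fin (N * (2 * N + 1)) → MvPolynomial (Fin (N + 1)) ℂ,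
          (∀ t, (Q t).IsHomogeneous 2) ∧ SmoothForm (powerForm D Q) ∧
          Good n N d m S (powerForm D Q) ∧ GoodAlg n N m S (powerForm D Q) := by
  obtain ⟨N, m, hm, hN⟩ := t_num n d hn hd
  refine ⟨N, m, hm, hN, fun D hD S hS => ?_⟩
  obtain ⟨Q, hQ, hsm, hg, hga⟩ := H n d hn hd N m hm hN D hD S hS
  refine ⟨Q, hQ, ?_, hg, hga⟩
  intro y hy
  obtain ⟨j, hj⟩ := hsm ℂ (RingHom.id ℂ) y hy
  rw [map_id] at hj
  exact ⟨j, hj⟩

section

variable {n N d : ℕ} {m : Fin (N + 1) → Fin (n + 1) → ℕ} {S : Set (MvPolynomial (Fin (n + 1)) ℂ)}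
  {A : MvPolynomial (Fin (N + 1)) ℂ}

/-- forms which vanish on `v(X)` vanish on the exceptional set -/
theorem on_image (hg : Good n N d m S A) (ha : GoodAlg n N m S A)
    {G : MvPolynomial (Fin (N + 1)) ℂ} (hG : IsForm G)
    (h : ∀ x : Fin (n + 1) → ℂ, (∀ p ∈ S, eval x p = 0) → eval (ver m x) G = 0) :
    OnPointed {A} G := by
  refine (transfer_pt n N d m S A hg ha G hG).2 (pt_van' hg.homS fun x hx => ?_)
  rw [eval_pull]
  exact h x hx

/-- subvarieties which are not contained in `v(X)` -/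
theorem other (hg : Good n N d m S A) (ha : GoodAlg n N m S A) : OtherSubvarieties m S A := by
  intro L _ _ w y hw hy
  rcases hg.special L w y hw (sub_unit hy) with h1 | h1
  · by_cases h2 : ∃ (x : Fin (n + 1) → L) (c : L), x ≠ 0 ∧ c ≠ 0 ∧ (∀ p ∈ S, aeval x p = 0) ∧
        y = c • veronese m x
    · exact Or.inr h2
    · refine Or.inl ⟨h1, ?_⟩
      obtain ⟨G, hG, hGv, hGy⟩ : ∃ G, IsForm G ∧ (∀ (Ω : Type) [Field Ω] [Algebra ℂ Ω]
          (x : Fin (n + 1) → Ω), (∀ p ∈ S, aeval x p = 0) → aeval (ver m x) G = 0) ∧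
          aeval y G ≠ 0 := by
        by_contra hcon
        push Not at hcon
        exact h2 (ver_closed hg.mon hg.deg hg.homS hy.ne hcon)
      refine ⟨G, hG, hGy, pt_mono (fun Ω _ _ x hx p hp => ?_)
        (on_image hg ha hG fun x hx => hGv ℂ x hx)⟩
      rw [Set.mem_singleton_iff] at hp
      rw [hp]
      exact hx A ⟨hg.homA, hy.mem ()⟩
  · exact Or.inr h1

/-- `V` is pseudo-geometrically hyperbolic if `v(V)` is -/
theorem hyp_of_ver (hm : Mon n N d m) (hd : 1 ≤ d) {L : Type} [Field L] [Algebra ℂ L]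
    {y : Fin (n + 1) → L} (h : PseudoGeomHyp (ver m y)) : PseudoGeomHyp y := by
  obtain ⟨G, ⟨e, he⟩, hGy, hG⟩ := h
  refine ⟨pull m G, ⟨_, pull_hom hm he⟩, by rw [aeval_pull]; exact hGy,
    pt_pull hm hd (fun Ω _ _ x hx p hp => ?_) hG⟩
  obtain ⟨⟨e', he'⟩, hp0⟩ := hp
  rw [← aeval_pull]
  exact hx (pull m p) ⟨⟨_, pull_hom hm he'⟩, by rw [aeval_pull]; exact hp0⟩

/-- `v(V)` is pseudo-geometrically hyperbolic if `V` is -/
theorem ver_of_hyp (hm : Mon n N d m) (hd : 1 ≤ d) {L : Type} [Field L] [Algebra ℂ L]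
    {y : Fin (n + 1) → L} (h : PseudoGeomHyp y) : PseudoGeomHyp (ver m y) := by
  obtain ⟨G, hG, hGy, hGp⟩ := h
  obtain ⟨G', hG', hpull⟩ := exists_form hm hG
  refine ⟨G', hG', ?_, ?_⟩
  · rw [← aeval_pull, hpull, map_pow]
    exact pow_ne_zero _ hGy
  · refine pt_push (S := Eqs y) hm hd (fun Ω _ _ z hz hzS => ?_) hG' (by
      rw [hpull]
      exact (pt_pow hd).2 hGp)
    refine ver_closed hm hd (fun p hp => hp.1) hz fun F hF hFv => hzS F ⟨hF, ?_⟩
    exact hFv L y fun p hp => hp.2

end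

/-- the theorem, from the construction -/
theorem assembly {D₁ : ℕ → ℕ} (H : GeoCurves D₁) :
    (∀ n d : ℕ, 1 ≤ n → 3 ≤ d → ∃ (N : ℕ) (m : Fin (N + 1) → Fin (n + 1) → ℕ),
      Monomials n N d m ∧ 2 * n < N ∧ ∀ D, D₁ N ≤ D →
        ∀ S : Set (MvPolynomial (Fin (n + 1)) ℂ), (∀ p ∈ S, ∃ e ≤ d, p.IsHomogeneous e) →
        ∃ Q : Fin (N * (2 * N + 1)) → MvPolynomial (Fin (N + 1)) ℂ,
          (∀ t, (Q t).IsHomogeneous 2) ∧ SmoothForm (powerForm D Q) ∧
          (∀ x : Fin (n + 1) → ℂ, (∀ p ∈ S, eval x p = 0) →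
            eval (veronese m x) (powerForm D Q) = 0) ∧
          CurvesBounded m S (powerForm D Q) ∧
          (∀ G, IsForm G → (∀ x : Fin (n + 1) → ℂ, (∀ p ∈ S, eval x p = 0) →
            eval (veronese m x) G = 0) → OnPointed {powerForm D Q} G) ∧
          LargeSubvarieties (n := n) (powerForm D Q) ∧
          OtherSubvarieties m S (powerForm D Q) ∧
          (∀ G, IsForm G → ∀ G₀, G₀ = aeval
              (fun a => ∏ j, (X j : MvPolynomial (Fin (n + 1)) ℂ) ^ m a j) G →
            (OnPointed {powerForm D Q} G ↔ OnPointed S G₀) ∧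
            (OnSpecial {powerForm D Q} G ↔ OnSpecial S G₀)) ∧
          SubvarietiesIff m S) ∧
    ∀ E : Set ℕ, E.Infinite →
      (HyperbolicImpliesGeneral ↔
        ∀ (N D : ℕ) (Q : Fin (N * (2 * N + 1)) → MvPolynomial (Fin (N + 1)) ℂ), D ∈ E →
          D₁ N ≤ D → (∀ t, (Q t).IsHomogeneous 2) → SmoothForm (powerForm D Q) →
          ∀ G, IsForm G → OnPointed {powerForm D Q} G → OnSpecial {powerForm D Q} G) ∧
      (GeneralImpliesHyperbolic ↔
        ∀ (N D : ℕ) (Q : Fin (N * (2 * N + 1)) → MvPolynomial (Fin (N + 1)) ℂ), D ∈ E →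
          D₁ N ≤ D → (∀ t, (Q t).IsHomogeneous 2) → SmoothForm (powerForm D Q) →
          ∀ (L : Type) [Field L] [Algebra ℂ L] (w : ℕ) (y : Fin (N + 1) → L), 1 ≤ w →
            SubVar (fun _ : Unit => powerForm D Q) L w y → GeneralType ℂ L w →
            Component (OnPointed {powerForm D Q}) y → PseudoGeomHyp y) := by
  refine ⟨?_, fun E hE => ⟨⟨?_, ?_⟩, ⟨?_, ?_⟩⟩⟩
  · intro n d hn hd
    obtain ⟨N, m, hm, hN, H2⟩ := cons H n d hn hd
    refine ⟨N, m, ⟨hm.deg, hm.inj, hm.surj⟩, hN, fun D hD S hS1 => ?_⟩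
    obtain ⟨Q, hQ, hsm, hg, hga⟩ := H2 D hD S hS1
    refine ⟨Q, hQ, hsm, fun x hx => hg.sub ℂ x hx, hga, fun G hG h => on_image hg hga hG h, ?_,
      other hg hga, ?_, ?_⟩
    · intro L _ _ w y hw hy
      rcases other hg hga L w y (by omega) hy with h1 | ⟨x, c, hx, hc, -, hyx⟩
      · exact h1
      · have := dim_le hy.gen hy.dim x hx (by
          rw [hyx]
          exact (coords_ver hg.mon hg.deg x hx c hc).symm)
        omega
    · rintro G hG _ rfl
      exact ⟨transfer_pt n N d m S _ hg hga G hG, special_iff hg hG⟩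
    · intro L _ _ w y hy
      exact ⟨ver_of_hyp hm hg.deg, hyp_of_ver hm hg.deg⟩
  · -- hyperbolic implies general, forward
    intro h N D Q _ _ hQ _ G hG hGp L _ _ w y hw hy
    by_cases h0 : aeval y G = 0
    · exact Or.inr h0
    · left
      refine h N L w y hw ⟨hy.ne, fun p => absurd p.2 (Set.notMem_empty _), hy.gen, hy.dim⟩
        ⟨G, hG, h0, pt_mono (fun Ω _ _ x hx p hp => ?_) hGp⟩
      rw [Set.mem_singleton_iff] at hp
      rw [hp]
      exact hx _ ⟨⟨2 + D, power_form hQ⟩, hy.mem ⟨_, rfl⟩⟩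
  · -- hyperbolic implies general, backward
    intro h n L _ _ w y hw hy hyp
    have hgen : Gen L w y := ⟨hy.ne, hy.gen, hy.dim⟩
    have hn : 1 ≤ n := by
      rcases Nat.eq_zero_or_pos n with h0 | h0
      · subst h0
        exact (qi_no hw hgen).elim
      · exact h0
    obtain ⟨S₀, d, hSame, hd3, hd⟩ := qi_same (Eqs y) (fun p hp => hp.1)
    obtain ⟨N, m, hm, -, H2⟩ := cons H n d hn hd3
    obtain ⟨D, hD, hD2⟩ := hE.exists_gt (D₁ N)
    obtain ⟨Q, hQ, hsm, hg, hga⟩ := H2 D hD2.le S₀ hd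
    obtain ⟨G, hG, hGy, hGp⟩ := hyp
    obtain ⟨G', hG', hpull⟩ := exists_form hm hG
    have h1 : OnPointed {powerForm D Q} G' := by
      refine (transfer_pt n N d m S₀ _ hg hga G' hG').2 ?_
      rw [hpull]
      exact (pt_pow hg.deg).2 (pt_mono (fun Ω _ _ x hx => (hSame Ω x).1 hx) hGp)
    have hysub : SubVar (fun p : S₀ => (p : MvPolynomial (Fin (n + 1)) ℂ)) L w y :=
      ⟨hy.ne, fun p => (hSame L y).2 (fun q hq => hq.2) p p.2, hy.gen, hy.dim⟩
    rcases h N D Q hD hD2.le hQ hsm G' hG' h1 L w (ver m y) hw (sub_ver hg hysub) with h2 | h2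
    · exact h2
    · exfalso
      rw [← aeval_pull, hpull, map_pow] at h2
      exact hGy (eq_zero_of_pow_eq_zero h2)
  · -- general implies hyperbolic, forward
    intro h N D Q _ _ hQ _ L _ _ w y hw hy hgt _
    exact h N L w y hw ⟨hy.ne, fun p => absurd p.2 (Set.notMem_empty _), hy.gen, hy.dim⟩ hgt
  · -- general implies hyperbolic, backward
    intro h n L _ _ w y hw hy hgt
    have hgen : Gen L w y := ⟨hy.ne, hy.gen, hy.dim⟩
    have hn : 1 ≤ n := by
      rcases Nat.eq_zero_or_pos n with h0 | h0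
      · subst h0
        exact (qi_no hw hgen).elim
      · exact h0
    by_contra hcon
    obtain ⟨S₀, d, hSame, hd3, hd⟩ := qi_same (Eqs y) (fun p hp => hp.1)
    obtain ⟨N, m, hm, -, H2⟩ := cons H n d hn hd3
    obtain ⟨D, hD, hD2⟩ := hE.exists_gt (D₁ N)
    obtain ⟨Q, hQ, hsm, hg, hga⟩ := H2 D hD2.le S₀ hd
    have hysub : SubVar (fun p : S₀ => (p : MvPolynomial (Fin (n + 1)) ℂ)) L w y :=
      ⟨hy.ne, fun p => (hSame L y).2 (fun q hq => hq.2) p p.2, hy.gen, hy.dim⟩
    have hsub := sub_ver hg hysub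
    refine hcon (hyp_of_ver hm hg.deg (h N D Q hD hD2.le hQ hsm L w (ver m y) hw
      ⟨hsub.ne, fun _ => hsub.mem ⟨_, rfl⟩, hsub.gen, hsub.dim⟩ hgt ⟨?_, 1, ?_, ?_, ?_⟩))
    · intro G hG hGp
      by_contra h3
      rw [← aeval_pull] at h3
      have h1 := (transfer_pt n N d m S₀ _ hg hga G hG).1 hGp
      obtain ⟨e, he⟩ := hG
      exact hcon ⟨pull m G, ⟨_, pull_hom hm he⟩, h3,
        pt_mono (fun Ω _ _ x hx => (hSame Ω x).2 hx) h1⟩
    · exact ⟨0, isHomogeneous_one _ _⟩
    · rw [map_one]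
      exact one_ne_zero
    · intro G hG hGy
      rw [mul_one]
      refine (transfer_pt n N d m S₀ _ hg hga G hG).2 ?_
      obtain ⟨e, he⟩ := hG
      refine pt_van ⟨_, pull_hom hm he⟩ fun Ω _ _ x hx => ?_
      exact (hSame Ω x).1 hx (pull m G) ⟨⟨_, pull_hom hm he⟩, by rw [aeval_pull]; exact hGy⟩

end proof

theorem result : ∃ D₁ : ℕ → ℕ,
    (∀ n d : ℕ, 1 ≤ n → 3 ≤ d → ∃ (N : ℕ) (m : Fin (N + 1) → Fin (n + 1) → ℕ),
      Monomials n N d m ∧ 2 * n < N ∧ ∀ D, D₁ N ≤ D →
        ∀ S : Set (MvPolynomial (Fin (n + 1)) ℂ), (∀ p ∈ S, ∃ e ≤ d, p.IsHomogeneous e) →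
        ∃ Q : Fin (N * (2 * N + 1)) → MvPolynomial (Fin (N + 1)) ℂ,
          (∀ t, (Q t).IsHomogeneous 2) ∧ SmoothForm (powerForm D Q) ∧
          (∀ x : Fin (n + 1) → ℂ, (∀ p ∈ S, eval x p = 0) →
            eval (veronese m x) (powerForm D Q) = 0) ∧
          CurvesBounded m S (powerForm D Q) ∧
          (∀ G, IsForm G → (∀ x : Fin (n + 1) → ℂ, (∀ p ∈ S, eval x p = 0) →
            eval (veronese m x) G = 0) → OnPointed {powerForm D Q} G) ∧
          LargeSubvarieties (n := n) (powerForm D Q) ∧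
          OtherSubvarieties m S (powerForm D Q) ∧
          (∀ G, IsForm G → ∀ G₀, G₀ = aeval
              (fun a => ∏ j, (X j : MvPolynomial (Fin (n + 1)) ℂ) ^ m a j) G →
            (OnPointed {powerForm D Q} G ↔ OnPointed S G₀) ∧
            (OnSpecial {powerForm D Q} G ↔ OnSpecial S G₀)) ∧
          SubvarietiesIff m S) ∧
    ∀ E : Set ℕ, E.Infinite →
      (HyperbolicImpliesGeneral ↔
        ∀ (N D : ℕ) (Q : Fin (N * (2 * N + 1)) → MvPolynomial (Fin (N + 1)) ℂ), D ∈ E →
          D₁ N ≤ D → (∀ t, (Q t).IsHomogeneous 2) → SmoothForm (powerForm D Q) →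
          ∀ G, IsForm G → OnPointed {powerForm D Q} G → OnSpecial {powerForm D Q} G) ∧
      (GeneralImpliesHyperbolic ↔
        ∀ (N D : ℕ) (Q : Fin (N * (2 * N + 1)) → MvPolynomial (Fin (N + 1)) ℂ), D ∈ E →
          D₁ N ≤ D → (∀ t, (Q t).IsHomogeneous 2) → SmoothForm (powerForm D Q) →
          ∀ (L : Type) [Field L] [Algebra ℂ L] (w : ℕ) (y : Fin (N + 1) → L), 1 ≤ w →
            SubVar (fun _ : Unit => powerForm D Q) L w y → GeneralType ℂ L w →
            Component (OnPointed {powerForm D Q}) y → PseudoGeomHyp y) := by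
  obtain ⟨D₁, H⟩ := Pool.Agent.N254.SQ.t_geoc (Pool.Agent.N254.SQ.t_alg
    (Pool.Agent.N254.SQ.t_hblk Pool.Agent.N254.SQ.t_hineq) Pool.Agent.N254.SQ.t_hform)
  exact ⟨D₁, assembly H⟩

end Pool.Agent.Results.MP_5b1cbc_ag.SmoothHypersurfacesSuffice
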